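import Mathlib

set_option autoImplicit false

open Finset

namespace TH981.DZ

/-- A finite-dimensional space of numbers containing `1` is spanned by `1` and `dim - 1` others. -/
lemma exists_gen (P : Submodule ℚ ℝ) [FiniteDimensional ℚ P] (h1 : (1 : ℝ) ∈ P) :
    ∃ S : Finset ℝ, S.card + 1 ≤ Module.finrank ℚ P ∧
      P ≤ Submodule.span ℚ (insert (1 : ℝ) (S : Set ℝ)) := by
  classical
  set e : P := ⟨1, h1⟩ with he
  have he0 : e ≠ 0 := by
    intro h
    have := congrArg Subtype.val h
    simp [he] at this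
  obtain ⟨q, hq⟩ := Submodule.exists_isCompl (Submodule.span ℚ {e})
  have hf := Submodule.finrank_add_eq_of_isCompl hq
  rw [finrank_span_singleton he0] at hf
  let b := Module.finBasis ℚ q
  refine ⟨Finset.univ.image (fun i => (((b i : q) : P) : ℝ)), ?_, ?_⟩
  · have := Finset.card_image_le (s := Finset.univ)
      (f := fun i : Fin (Module.finrank ℚ q) => (((b i : q) : P) : ℝ))
    simp only [Finset.card_univ, Fintype.card_fin] at this
    omega
  · intro p hp
    have hp2 : (⟨p, hp⟩ : P) ∈ Submodule.span ℚ {e} ⊔ q := by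
      rw [hq.sup_eq_top]; trivial
    obtain ⟨u, hu, v, hv, huv⟩ := Submodule.mem_sup.1 hp2
    obtain ⟨c, rfl⟩ := Submodule.mem_span_singleton.1 hu
    have hval : p = c • (1 : ℝ) + (v : ℝ) := by
      have := congrArg Subtype.val huv
      simpa [he] using this.symm
    rw [hval]
    refine Submodule.add_mem _ (Submodule.smul_mem _ _ (Submodule.subset_span (Set.mem_insert _ _))) ?_
    have hr := b.sum_repr ⟨v, hv⟩
    have hr2 : (v : ℝ) = ∑ i, (b.repr ⟨v, hv⟩ i) • (((b i : q) : P) : ℝ) := by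
      have h3 := congrArg (fun z : q => (((z : q) : P) : ℝ)) hr
      simp only at h3
      rw [← h3]
      push_cast
      rfl
    rw [hr2]
    refine Submodule.sum_mem _ fun i _ => Submodule.smul_mem _ _ (Submodule.subset_span ?_)
    refine Set.mem_insert_of_mem _ ?_
    simp

lemma isAlg_of_mem_span {S : Finset ℝ} {R0 : Subalgebra ℚ ℝ} (hS : ∀ s ∈ S, s ∈ R0) {p : ℝ}
    (hp : p ∈ Submodule.span ℚ (insert (1 : ℝ) (S : Set ℝ))) : IsAlgebraic R0 p := by
  have : p ∈ R0 := by
    have hle : Submodule.span ℚ (insert (1 : ℝ) (S : Set ℝ)) ≤ Subalgebra.toSubmodule R0 := by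
      rw [Submodule.span_le]
      intro y hy
      rcases hy with rfl | hy
      · exact R0.one_mem
      · exact hS y (by simpa using hy)
    exact hle hp
  exact isAlgebraic_algebraMap (⟨p, this⟩ : R0)

open AlgebraicIndependent in
/-- Algebraically independent numbers algebraic over `ℚ[S]` are at most `#S` in number. -/
lemma card_le_of_isAlgebraic (S : Finset ℝ) {ι : Type} [Fintype ι] (y : ι → ℝ)
    (hy : AlgebraicIndependent ℚ y)
    (halg : ∀ i, IsAlgebraic (Algebra.adjoin ℚ (S : Set ℝ)) (y i)) : Fintype.card ι ≤ S.card := by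
  classical
  have hinj : Function.Injective y := hy.injective
  have h1 : (matroid ℚ ℝ).Indep (Set.range y) := by
    rw [matroid_indep_iff]
    exact hy.coe_range
  have h2 : Set.range y ⊆ (matroid ℚ ℝ).closure (S : Set ℝ) := by
    rw [matroid_closure_eq]
    rintro _ ⟨i, rfl⟩
    exact halg i
  have h3 := h1.encard_le_eRk_of_subset h2
  rw [Matroid.eRk_closure_eq] at h3
  have h4 := h3.trans ((matroid ℚ ℝ).eRk_le_encard (S : Set ℝ))
  rw [Set.encard_coe_eq_coe_finsetCard] at h4
  have h5 : (Set.range y).encard = Fintype.card ι := by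
    rw [← Set.image_univ, hinj.encard_image, Set.encard_univ]
    simp
  rw [h5] at h4
  exact_mod_cast h4

/-- The main inequality, abstractly. -/
theorem trdeg_bound {x : ℕ → ℝ} (hx : ∀ a, 1 ≤ a → x a ≠ 0) {n : ℕ} (hn : 1 ≤ n)
    (P P' : Submodule ℚ ℝ) [FiniteDimensional ℚ P] [FiniteDimensional ℚ P']
    (h1 : (1 : ℝ) ∈ P) (h1' : (1 : ℝ) ∈ P')
    (hP : ∀ a b, 1 ≤ a → 1 ≤ b → a + b = n → x a * x b ∈ P)
    (hP' : ∀ a b, 1 ≤ a → 1 ≤ b → a + b = n + 1 → x a * x b ∈ P')
    (A : Finset ℕ) (hA : ∀ a ∈ A, 1 ≤ a ∧ a ≤ n)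
    (hind : AlgebraicIndependent ℚ (fun a : A => x a)) :
    A.card + 2 ≤ Module.finrank ℚ P + Module.finrank ℚ P' := by
  classical
  obtain ⟨S, hS1, hS2⟩ := exists_gen P h1
  obtain ⟨S', hS1', hS2'⟩ := exists_gen P' h1'
  set R0 := Algebra.adjoin ℚ ((S ∪ S' : Finset ℝ) : Set ℝ) with hR0
  have hmem : ∀ s ∈ S ∪ S', s ∈ R0 := fun s hs => Algebra.subset_adjoin (by simpa using hs)
  have aP : ∀ p ∈ P, IsAlgebraic R0 p := fun p hp =>
    isAlg_of_mem_span (S := S) (fun s hs => hmem s (mem_union_left _ hs)) (hS2 hp)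
  have aP' : ∀ p ∈ P', IsAlgebraic R0 p := fun p hp =>
    isAlg_of_mem_span (S := S') (fun s hs => hmem s (mem_union_right _ hs)) (hS2' hp)
  have hratio : ∀ b, 1 ≤ b → b + 1 ≤ n → IsAlgebraic R0 (x (b + 1) / x b) := by
    intro b hb hbn
    have u := aP' _ (hP' (n - b) (b + 1) (by omega) (by omega) (by omega))
    have v := aP _ (hP (n - b) b (by omega) hb (by omega))
    have e : x (b + 1) / x b = (x (n - b) * x (b + 1)) * (x (n - b) * x b)⁻¹ := by
      have h1 := hx (n - b) (by omega)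
      have h2 := hx b hb
      field_simp
    rw [e]
    exact u.mul v.inv
  have hrat1 : ∀ c, 1 ≤ c → c ≤ n → IsAlgebraic R0 (x c / x 1) := by
    intro c hc
    induction c, hc using Nat.le_induction with
    | base =>
      intro _
      rw [div_self (hx 1 le_rfl)]
      exact isAlgebraic_one
    | succ c hc ih =>
      intro hcn
      have e : x (c + 1) / x 1 = (x (c + 1) / x c) * (x c / x 1) := by
        have h1 := hx c hc
        have h2 := hx 1 le_rfl
        field_simp
      rw [e]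
      exact (hratio c hc hcn).mul (ih (by omega))
  have hsq : IsAlgebraic R0 (x 1 ^ 2) := by
    have u := aP' _ (hP' 1 n le_rfl hn (by omega))
    have e : x 1 ^ 2 = (x 1 * x n) * (x n / x 1)⁻¹ := by
      have h1 := hx n hn
      have h2 := hx 1 le_rfl
      field_simp
    rw [e]
    exact u.mul (hrat1 n hn le_rfl).inv
  have hone : IsAlgebraic R0 (x 1) := IsAlgebraic.of_pow (by norm_num : 0 < 2) hsq
  have hall : ∀ c, 1 ≤ c → c ≤ n → IsAlgebraic R0 (x c) := by
    intro c hc hcn
    have e : x c = (x c / x 1) * x 1 := by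
      have h2 := hx 1 le_rfl
      field_simp
    rw [e]
    exact (hrat1 c hc hcn).mul hone
  have hcard := card_le_of_isAlgebraic (S ∪ S') (fun a : A => x a) hind
    (fun a => hall a (hA a a.2).1 (hA a a.2).2)
  rw [Fintype.card_coe] at hcard
  have := Finset.card_union_le S S'
  omega

end TH981.DZ

namespace TH981.DZ

open Finset in
/-- The field of all products is generated by few numbers. -/
theorem field_bound {x : ℕ → ℝ} (hx : ∀ a, 1 ≤ a → x a ≠ 0) {n : ℕ} (hn : 1 ≤ n)
    (P P' : Submodule ℚ ℝ) [FiniteDimensional ℚ P] [FiniteDimensional ℚ P']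
    (h1 : (1 : ℝ) ∈ P) (h1' : (1 : ℝ) ∈ P')
    (hP : ∀ a b, 1 ≤ a → 1 ≤ b → a + b = n → x a * x b ∈ P)
    (hP' : ∀ a b, 1 ≤ a → 1 ≤ b → a + b = n + 1 → x a * x b ∈ P') :
    ∃ S : Finset ℝ, S.card + 2 ≤ Module.finrank ℚ P + Module.finrank ℚ P' ∧
      ∀ a b, 1 ≤ a → a ≤ n → 1 ≤ b → b ≤ n →
        x a * x b ∈ IntermediateField.adjoin ℚ (S : Set ℝ) := by
  classical
  obtain ⟨S, hS1, hS2⟩ := exists_gen P h1
  obtain ⟨S', hS1', hS2'⟩ := exists_gen P' h1'
  refine ⟨S ∪ S', ?_, ?_⟩
  · have := Finset.card_union_le S S'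
    omega
  set K := IntermediateField.adjoin ℚ ((S ∪ S' : Finset ℝ) : Set ℝ) with hK
  have hspan : ∀ (U : Finset ℝ), U ⊆ S ∪ S' → ∀ p ∈ Submodule.span ℚ (insert (1 : ℝ) (U : Set ℝ)),
      p ∈ K := by
    intro U hU p hp
    have hle : Submodule.span ℚ (insert (1 : ℝ) (U : Set ℝ)) ≤
        Subalgebra.toSubmodule K.toSubalgebra := by
      rw [Submodule.span_le]
      intro y hy
      rcases hy with rfl | hy
      · exact K.one_mem
      · exact IntermediateField.subset_adjoin ℚ _ (Finset.mem_coe.2 (hU (by simpa using hy)))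
    exact hle hp
  have aP : ∀ p ∈ P, p ∈ K := fun p hp => hspan S subset_union_left p (hS2 hp)
  have aP' : ∀ p ∈ P', p ∈ K := fun p hp => hspan S' subset_union_right p (hS2' hp)
  have hratio : ∀ b, 1 ≤ b → b + 1 ≤ n → x (b + 1) / x b ∈ K := by
    intro b hb hbn
    have u := aP' _ (hP' (n - b) (b + 1) (by omega) (by omega) (by omega))
    have v := aP _ (hP (n - b) b (by omega) hb (by omega))
    have e : x (b + 1) / x b = (x (n - b) * x (b + 1)) * (x (n - b) * x b)⁻¹ := by
      have h1 := hx (n - b) (by omega)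
      have h2 := hx b hb
      field_simp
    rw [e]
    exact K.mul_mem u (K.inv_mem v)
  have hrat1 : ∀ c, 1 ≤ c → c ≤ n → x c / x 1 ∈ K := by
    intro c hc
    induction c, hc using Nat.le_induction with
    | base =>
      intro _
      rw [div_self (hx 1 le_rfl)]
      exact K.one_mem
    | succ c hc ih =>
      intro hcn
      have e : x (c + 1) / x 1 = (x (c + 1) / x c) * (x c / x 1) := by
        have h1 := hx c hc
        have h2 := hx 1 le_rfl
        field_simp
      rw [e]
      exact K.mul_mem (hratio c hc hcn) (ih (by omega))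
  have hsq : x 1 ^ 2 ∈ K := by
    have u := aP' _ (hP' 1 n le_rfl hn (by omega))
    have e : x 1 ^ 2 = (x 1 * x n) * (x n / x 1)⁻¹ := by
      have h1 := hx n hn
      have h2 := hx 1 le_rfl
      field_simp
    rw [e]
    exact K.mul_mem u (K.inv_mem (hrat1 n hn le_rfl))
  intro a b ha han hb hbn
  have e : x a * x b = (x a / x 1) * (x b / x 1) * x 1 ^ 2 := by
    have h2 := hx 1 le_rfl
    field_simp
  rw [e]
  exact K.mul_mem (K.mul_mem (hrat1 a ha han) (hrat1 b hb hbn)) hsq

end TH981.DZ
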