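import Mathlib
import Pool.Agent.TH981.DZ.Alg

set_option autoImplicit false

open Finset

namespace TH981.DZ

/-- representative of `c` modulo `δ` in `1, …, δ` -/
def rep (δ c : ℕ) : ℕ := (c - 1) % δ + 1

lemma rep_pos (δ c : ℕ) : 1 ≤ rep δ c := by unfold rep; omega

lemma rep_le {δ : ℕ} (hδ : 1 ≤ δ) (c : ℕ) : rep δ c ≤ δ := by
  unfold rep
  have := Nat.mod_lt (c - 1) (show δ > 0 by omega)
  omega

lemma rep_self {δ c : ℕ} (h1 : 1 ≤ c) (h2 : c ≤ δ) : rep δ c = c := by
  unfold rep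
  rw [Nat.mod_eq_of_lt (by omega)]
  omega

lemma rep_add {δ b : ℕ} (hb : 1 ≤ b) : rep δ (b + δ) = rep δ b := by
  unfold rep
  have : b + δ - 1 = (b - 1) + δ := by omega
  rw [this, Nat.add_mod_right]

lemma par_par {n δ r : ℕ} (hn : 1 ≤ n) (h1 : 1 ≤ r) (h2 : r ≤ δ) :
    rep δ (n + δ - rep δ (n + δ - r)) = r := by
  obtain ⟨s, hs⟩ : ∃ s, s = (n + δ - r - 1) % δ := ⟨_, rfl⟩
  have hs' : rep δ (n + δ - r) = s + 1 := by unfold rep; rw [hs]
  have hd := Nat.div_add_mod (n + δ - r - 1) δ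
  rw [← hs] at hd
  obtain ⟨q, hq⟩ : ∃ q, q = (n + δ - r - 1) / δ := ⟨_, rfl⟩
  rw [← hq] at hd
  have hsl : s < δ := by rw [hs]; exact Nat.mod_lt _ (by omega)
  rw [hs']
  unfold rep
  obtain ⟨z, hz⟩ : ∃ z, z = δ * q := ⟨_, rfl⟩
  have e : n + δ - (s + 1) - 1 = (r - 1) + δ * q := by
    rw [← hz] at hd ⊢
    omega
  rw [e, Nat.add_mul_mod_self_left, Nat.mod_eq_of_lt (by omega)]
  omega

/-- The block inequality. -/
theorem block_bound {x : ℕ → ℝ} (hx : ∀ a, 1 ≤ a → x a ≠ 0) {n δ : ℕ} (hn : 1 ≤ n) (hδ : 1 ≤ δ)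
    (P P' : Submodule ℚ ℝ) [FiniteDimensional ℚ P] [FiniteDimensional ℚ P']
    (h1 : (1 : ℝ) ∈ P) (h1' : (1 : ℝ) ∈ P')
    (hP : ∀ a b, 1 ≤ a → 1 ≤ b → a + b = n → x a * x b ∈ P)
    (hP' : ∀ a b, 1 ≤ a → 1 ≤ b → a + b = n + δ → x a * x b ∈ P') :
    ∃ S : Finset ℝ, S.card + 2 ≤ Module.finrank ℚ P + Module.finrank ℚ P' + δ / 2 ∧
      ∀ c, 1 ≤ c → c < n + δ → x c ^ 2 ∈ IntermediateField.adjoin ℚ (S : Set ℝ) := by
  classical
  obtain ⟨S, hS1, hS2⟩ := exists_gen P h1
  obtain ⟨S', hS1', hS2'⟩ := exists_gen P' h1'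
  -- the representatives of the pairs
  set par : ℕ → ℕ := fun r => rep δ (n + δ - r) with hpar
  set Tt : Finset ℕ := (Finset.Icc 1 δ).filter (fun r => r < par r) with hTt
  have hTcard : 2 * Tt.card ≤ δ := by
    have hinj : Set.InjOn par (Tt : Set ℕ) := by
      intro r hr r' hr' h
      simp only [hTt, coe_filter, mem_Icc, Set.mem_ofPred_eq] at hr hr'
      have e1 := par_par hn hr.1.1 hr.1.2
      have e2 := par_par hn hr'.1.1 hr'.1.2
      have e3 : rep δ (n + δ - par r) = rep δ (n + δ - par r') := by rw [h]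
      rw [← e1, ← e2]
      exact e3
    have hdis : Disjoint Tt (Tt.image par) := by
      rw [Finset.disjoint_left]
      intro r hr hr'
      obtain ⟨u, hu, rfl⟩ := Finset.mem_image.1 hr'
      simp only [hTt, mem_filter, mem_Icc] at hr hu
      have e1 : par (par u) = u := par_par hn hu.1.1 hu.1.2
      rw [e1] at hr
      omega
    have hsub : Tt ∪ Tt.image par ⊆ Finset.Icc 1 δ := by
      intro r hr
      rcases Finset.mem_union.1 hr with h | h
      · exact (Finset.mem_filter.1 h).1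
      · obtain ⟨u, hu, rfl⟩ := Finset.mem_image.1 h
        rw [mem_Icc]
        exact ⟨rep_pos _ _, rep_le hδ _⟩
    have hc := Finset.card_le_card hsub
    rw [Finset.card_union_of_disjoint hdis, Finset.card_image_of_injOn hinj, Nat.card_Icc] at hc
    omega
  refine ⟨(S ∪ S') ∪ Tt.image x, ?_, ?_⟩
  · have c1 := Finset.card_union_le (S ∪ S') (Tt.image x)
    have c2 := Finset.card_union_le S S'
    have c3 := Finset.card_image_le (s := Tt) (f := x)
    omega
  set K := IntermediateField.adjoin ℚ (((S ∪ S') ∪ Tt.image x : Finset ℝ) : Set ℝ) with hK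
  have hgen : ∀ y ∈ (S ∪ S') ∪ Tt.image x, y ∈ K := fun y hy =>
    IntermediateField.subset_adjoin ℚ _ (Finset.mem_coe.2 hy)
  have hspan : ∀ (U : Finset ℝ), U ⊆ S ∪ S' → ∀ p ∈ Submodule.span ℚ (insert (1 : ℝ) (U : Set ℝ)),
      p ∈ K := by
    intro U hU p hp
    have hle : Submodule.span ℚ (insert (1 : ℝ) (U : Set ℝ)) ≤
        Subalgebra.toSubmodule K.toSubalgebra := by
      rw [Submodule.span_le]
      intro y hy
      rcases hy with rfl | hy
      · exact K.one_mem
      · exact hgen y (mem_union_left _ (hU (by simpa using hy)))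
    exact hle hp
  have aP : ∀ p ∈ P, p ∈ K := fun p hp => hspan S subset_union_left p (hS2 hp)
  have aP' : ∀ p ∈ P', p ∈ K := fun p hp => hspan S' subset_union_right p (hS2' hp)
  have hstep : ∀ b, 1 ≤ b → b < n → x (b + δ) / x b ∈ K := by
    intro b hb hbn
    have u := aP' _ (hP' (n - b) (b + δ) (by omega) (by omega) (by omega))
    have v := aP _ (hP (n - b) b (by omega) hb (by omega))
    have e : x (b + δ) / x b = (x (n - b) * x (b + δ)) * (x (n - b) * x b)⁻¹ := by
      have h1 := hx (n - b) (by omega)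
      have h2 := hx b hb
      field_simp
    rw [e]
    exact K.mul_mem u (K.inv_mem v)
  have hrep : ∀ c, 1 ≤ c → c < n + δ → x c / x (rep δ c) ∈ K := by
    intro c
    induction c using Nat.strong_induction_on with
    | _ c ih =>
      intro hc hcn
      rcases le_or_gt c δ with h | h
      · rw [rep_self hc h, div_self (hx c hc)]
        exact K.one_mem
      · obtain ⟨b, rfl⟩ : ∃ b, c = b + δ := ⟨c - δ, by omega⟩
        have hb : 1 ≤ b := by omega
        rw [rep_add hb]
        have e : x (b + δ) / x (rep δ b) = (x (b + δ) / x b) * (x b / x (rep δ b)) := by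
          have h1 := hx b hb
          have h2 := hx (rep δ b) (rep_pos _ _)
          field_simp
        rw [e]
        exact K.mul_mem (hstep b hb (by omega)) (ih b (by omega) hb (by omega))
  have hpair : ∀ r, 1 ≤ r → r ≤ δ → x r * x (par r) ∈ K := by
    intro r hr hrδ
    have u := aP' _ (hP' r (n + δ - r) hr (by omega) (by omega))
    have v := hrep (n + δ - r) (by omega) (by omega)
    have e : x r * x (par r) = (x r * x (n + δ - r)) * (x (n + δ - r) / x (rep δ (n + δ - r)))⁻¹ := by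
      have h1 := hx (n + δ - r) (by omega)
      have h2 := hx (rep δ (n + δ - r)) (rep_pos _ _)
      simp only [hpar]
      field_simp
    rw [e]
    exact K.mul_mem u (K.inv_mem v)
  have hsmall : ∀ r, 1 ≤ r → r ≤ δ → x r ^ 2 ∈ K := by
    intro r hr hrδ
    rcases lt_trichotomy r (par r) with h | h | h
    · refine K.pow_mem (hgen _ (mem_union_right _ (mem_image_of_mem x ?_))) 2
      rw [hTt, mem_filter, mem_Icc]
      exact ⟨⟨hr, hrδ⟩, h⟩
    · have := hpair r hr hrδ
      rw [← h] at this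
      rw [pow_two]; exact this
    · have h0 : x (par r) ∈ K := by
        refine hgen _ (mem_union_right _ (mem_image_of_mem x ?_))
        rw [hTt, mem_filter, mem_Icc]
        refine ⟨⟨rep_pos _ _, rep_le hδ _⟩, ?_⟩
        have e1 : par (par r) = r := par_par hn hr hrδ
        rw [e1]; exact h
      have e : x r = (x r * x (par r)) * (x (par r))⁻¹ := by
        have h2 := hx (par r) (rep_pos _ _)
        field_simp
      rw [e]
      exact K.pow_mem (K.mul_mem (hpair r hr hrδ) (K.inv_mem h0)) 2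
  intro c hc hcn
  have e : x c ^ 2 = (x c / x (rep δ c)) ^ 2 * x (rep δ c) ^ 2 := by
    have h2 := hx (rep δ c) (rep_pos _ _)
    field_simp
  rw [e]
  exact K.mul_mem (K.pow_mem (hrep c hc hcn) 2) (hsmall _ (rep_pos _ _) (rep_le hδ _))

lemma isAlgebraic_of_sq {S : Finset ℝ} {y : ℝ}
    (hy : y ^ 2 ∈ IntermediateField.adjoin ℚ (S : Set ℝ)) :
    IsAlgebraic (Algebra.adjoin ℚ (S : Set ℝ)) y := by
  obtain ⟨r, hr, s, hs, h⟩ := IntermediateField.mem_adjoin_iff_div.1 hy
  refine IsAlgebraic.of_pow (by norm_num : 0 < 2) ?_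
  rw [h, div_eq_mul_inv]
  exact (isAlgebraic_algebraMap (⟨r, hr⟩ : Algebra.adjoin ℚ (S : Set ℝ))).mul
    (isAlgebraic_algebraMap (⟨s, hs⟩ : Algebra.adjoin ℚ (S : Set ℝ))).inv

end TH981.DZ
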