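import Mathlib

set_option autoImplicit false

open Filter Topology Finset

namespace TH981.DZ

/-- truncated double sum -/
noncomputable def T (f : ℕ → ℕ → ℝ) (N : ℕ) : ℝ := ∑ a ∈ range N, ∑ b ∈ range a, f a b

lemma T_succ (f : ℕ → ℕ → ℝ) (N : ℕ) : T f (N + 1) = T f N + ∑ b ∈ range N, f N b := by
  unfold T; rw [sum_range_succ]

/-- The triangle. -/
def tri (N : ℕ) : Finset (ℕ × ℕ) := (range N ×ˢ range N).filter (fun p => p.1 + p.2 + 1 < N)

lemma tri_sum (f : ℕ → ℕ → ℝ) (N : ℕ) :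
    ∑ p ∈ tri N, f (p.1 + p.2 + 1) p.2 = T f N := by
  unfold T
  rw [Finset.sum_sigma']
  refine Finset.sum_nbij' (fun p => ⟨p.1 + p.2 + 1, p.2⟩) (fun q => (q.1 - q.2 - 1, q.2)) ?_ ?_ ?_ ?_ ?_
  · intro p hp
    simp only [tri, mem_filter, mem_product, mem_range, mem_sigma] at hp ⊢
    omega
  · intro q hq
    simp only [tri, mem_filter, mem_product, mem_range, mem_sigma] at hq ⊢
    omega
  · intro p hp
    ext
    · simp only []; omega
    · rfl
  · rintro ⟨a, b⟩ hq
    simp only [mem_range, mem_sigma] at hq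
    have : a - b - 1 + b + 1 = a := by omega
    simp [this]
  · intro p _; rfl

lemma tendsto_T {f : ℕ → ℕ → ℝ} (hs : Summable fun p : ℕ × ℕ => f (p.1 + p.2 + 1) p.2) :
    Tendsto (T f) atTop (𝓝 (∑' p : ℕ × ℕ, f (p.1 + p.2 + 1) p.2)) := by
  have h1 : Tendsto tri atTop atTop := by
    refine tendsto_atTop_finset_of_monotone ?_ ?_
    · intro N N' h p hp
      simp only [tri, mem_filter, mem_product, mem_range] at hp ⊢
      omega
    · intro p
      refine ⟨p.1 + p.2 + 2, ?_⟩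
      simp only [tri, mem_filter, mem_product, mem_range]
      omega
  have h2 := hs.hasSum.comp h1
  refine h2.congr fun N => ?_
  exact tri_sum f N

/-- weights -/
noncomputable def w (s : ℕ) (a : ℕ) : ℝ := 1 / (((a + 1 : ℕ) : ℝ) ^ s)

lemma w_pos (s a : ℕ) : 0 < w s a := by unfold w; positivity

lemma w_le_one (s a : ℕ) : w s a ≤ 1 := by
  unfold w
  rw [div_le_one (by positivity)]
  exact one_le_pow₀ (by exact_mod_cast Nat.succ_le_succ (Nat.zero_le a))

lemma w_mul (s t a : ℕ) : w s a * w t a = w (s + t) a := by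
  unfold w; rw [pow_add]; field_simp

lemma w_anti {s a b : ℕ} (h : b ≤ a) : w s a ≤ w s b := by
  unfold w
  gcongr

lemma w_anti_exp {s t a : ℕ} (h : s ≤ t) : w t a ≤ w s a := by
  obtain ⟨d, rfl⟩ := Nat.exists_eq_add_of_le h
  rw [← w_mul]
  exact mul_le_of_le_one_right (w_pos _ _).le (w_le_one _ _)

lemma summable_w {s : ℕ} (hs : 2 ≤ s) : Summable (w s) := by
  have h := (Real.summable_one_div_nat_pow (p := s)).2 (by omega)
  exact (summable_nat_add_iff 1).2 h

/-- the real zeta value -/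
noncomputable def zr (s : ℕ) : ℝ := ∑' n : ℕ, w s n

lemma zr_pos {s : ℕ} (hs : 2 ≤ s) : 0 < zr s :=
  (summable_w hs).tsum_pos (fun i => (w_pos s i).le) 0 (w_pos s 0)

/-- the double zeta value -/
noncomputable def zd (r s : ℕ) : ℝ := ∑' p : ℕ × ℕ, w r (p.1 + p.2 + 1) * w s p.2

lemma summable_zd {r s : ℕ} (hr : 3 ≤ r) (hs : 1 ≤ s) :
    Summable fun p : ℕ × ℕ => w r (p.1 + p.2 + 1) * w s p.2 := by
  have h0 : Summable fun p : ℕ × ℕ => w 2 p.1 * w 2 p.2 :=
    (summable_w le_rfl).mul_of_nonneg (summable_w le_rfl) (fun i => (w_pos 2 i).le)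
      (fun i => (w_pos 2 i).le)
  refine Summable.of_nonneg_of_le (fun p => (mul_pos (w_pos _ _) (w_pos _ _)).le) (fun p => ?_) h0
  have h1 : w r (p.1 + p.2 + 1) ≤ w 2 p.1 * w 1 p.2 := by
    calc w r (p.1 + p.2 + 1) ≤ w (2 + 1) (p.1 + p.2 + 1) := w_anti_exp hr
      _ = w 2 (p.1 + p.2 + 1) * w 1 (p.1 + p.2 + 1) := (w_mul _ _ _).symm
      _ ≤ w 2 p.1 * w 1 p.2 :=
        mul_le_mul (w_anti (by omega)) (w_anti (by omega)) (w_pos _ _).le (w_pos _ _).le
  calc w r (p.1 + p.2 + 1) * w s p.2 ≤ (w 2 p.1 * w 1 p.2) * w 1 p.2 :=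
        mul_le_mul h1 (w_anti_exp hs) (w_pos _ _).le (mul_pos (w_pos _ _) (w_pos _ _)).le
    _ = w 2 p.1 * w 2 p.2 := by rw [mul_assoc, w_mul]

/-- stuffle for truncated sums -/
lemma stuffle_trunc (u v : ℕ → ℝ) (N : ℕ) :
    (∑ a ∈ range N, u a) * ∑ b ∈ range N, v b =
      T (fun a b => u a * v b) N + T (fun a b => v a * u b) N + ∑ a ∈ range N, u a * v a := by
  induction N with
  | zero => simp [T]
  | succ N ih =>
    rw [T_succ, T_succ, sum_range_succ, sum_range_succ, sum_range_succ, add_mul, mul_add, mul_add,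
      ih, ← mul_sum, ← mul_sum]
    ring

theorem stuffle {r s : ℕ} (hr : 3 ≤ r) (hs : 3 ≤ s) :
    zr r * zr s = zd r s + zd s r + zr (r + s) := by
  have h1 : Tendsto (fun N => (∑ a ∈ range N, w r a) * ∑ b ∈ range N, w s b) atTop
      (𝓝 (zr r * zr s)) :=
    (summable_w (by omega)).hasSum.tendsto_sum_nat.mul (summable_w (by omega)).hasSum.tendsto_sum_nat
  have h2 := (tendsto_T (f := fun a b => w r a * w s b) (summable_zd hr (by omega))).add
    (tendsto_T (f := fun a b => w s a * w r b) (summable_zd hs (by omega)))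
  have h3 : Tendsto (fun N => ∑ a ∈ range N, w (r + s) a) atTop (𝓝 (zr (r + s))) :=
    (summable_w (by omega)).hasSum.tendsto_sum_nat
  refine tendsto_nhds_unique h1 ((h2.add h3).congr fun N => ?_)
  rw [stuffle_trunc]
  simp only [w_mul]

/-- harmonic numbers -/
noncomputable def H (n : ℕ) : ℝ := ∑ i ∈ range n, w 1 i

lemma H_succ (n : ℕ) : H (n + 1) = H n + w 1 n := by unfold H; rw [sum_range_succ]

lemma H_diff_le (c n : ℕ) : H (c + n) - H c ≤ n * w 1 c := by
  induction n with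
  | zero => simp
  | succ n ih =>
    rw [← add_assoc, H_succ]
    have : w 1 (c + n) ≤ w 1 c := w_anti (by omega)
    push_cast
    linarith

lemma H_diff_nonneg (c n : ℕ) : 0 ≤ H (c + n) - H c := by
  induction n with
  | zero => simp
  | succ n ih =>
    rw [← add_assoc, H_succ]
    have := w_pos 1 (c + n)
    linarith

/-- the sum over the odd pairs -/
noncomputable def F (m a b : ℕ) : ℝ := ∑ i ∈ range (m - 1), w (2 * i + 3) a * w (2 * m - 2 * i - 3) b

lemma F_eq {m a b : ℕ} (hm : 2 ≤ m) (hb : b < a) :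
    F m a b = w (2 * m - 1) b * (1 / 2) * (w 1 (a - (b + 1)) + w 1 (a + (b + 1)) - 2 * w 1 a) -
      w (2 * m - 1) a * (1 / 2) * (w 1 (a - (b + 1)) - w 1 (a + (b + 1))) := by
  obtain ⟨k, rfl⟩ : ∃ k, m = k + 2 := ⟨m - 2, by omega⟩
  obtain ⟨c, rfl⟩ : ∃ c, a = b + 1 + c := ⟨a - (b + 1), by omega⟩
  have e1 : F (k + 2) (b + 1 + c) b = w 3 (b + 1 + c) * w 1 b *
      ∑ i ∈ range (k + 1), (w 2 (b + 1 + c)) ^ i * (w 2 b) ^ (k + 1 - 1 - i) := by
    unfold F
    rw [mul_sum]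
    refine sum_congr rfl fun i hi => ?_
    have hi' : i ≤ k := by simpa [Nat.lt_succ_iff] using hi
    unfold w
    have h1 : 2 * (k + 2) - 2 * i - 3 = 2 * (k - i) + 1 := by omega
    have h2 : k + 1 - 1 - i = k - i := by omega
    rw [h1, h2]
    simp only [div_pow, one_pow, ← pow_mul]
    rw [pow_add _ (2 * i) 3, pow_add _ (2 * (k - i)) 1]
    field_simp
  have hg := geom_sum₂_mul (w 2 (b + 1 + c)) (w 2 b) (k + 1)
  have hc : b + 1 + c - (b + 1) = c := by omega
  rw [hc, e1]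
  set G := ∑ i ∈ range (k + 1), (w 2 (b + 1 + c)) ^ i * (w 2 b) ^ (k + 1 - 1 - i) with hG
  have hU : (w 2 (b + 1 + c)) ^ (k + 1) = w (2 * (k + 1)) (b + 1 + c) := by
    unfold w; rw [div_pow, one_pow, ← pow_mul]
  have hW : (w 2 b) ^ (k + 1) = w (2 * (k + 1)) b := by
    unfold w; rw [div_pow, one_pow, ← pow_mul]
  rw [hU, hW] at hg
  have h3 : 2 * (k + 2) - 1 = 2 * (k + 1) + 1 := by omega
  rw [h3, ← w_mul, ← w_mul]
  set U := w (2 * (k + 1)) (b + 1 + c)
  set W := w (2 * (k + 1)) b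
  -- now everything in terms of the reals M and n
  obtain ⟨n, hn⟩ : ∃ n : ℝ, n = (b : ℝ) + 1 := ⟨_, rfl⟩
  obtain ⟨t, ht⟩ : ∃ t : ℝ, t = (c : ℝ) + 1 := ⟨_, rfl⟩
  have hn0 : 0 < n := by rw [hn]; positivity
  have ht0 : 0 < t := by rw [ht]; positivity
  have w1 : w 1 b = 1 / n := by unfold w; rw [hn]; push_cast; ring
  have w2 : w 2 b = 1 / n ^ 2 := by unfold w; rw [hn]; push_cast; ring
  have w3 : w 1 (b + 1 + c) = 1 / (n + t) := by unfold w; rw [hn, ht]; push_cast; ring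
  have w4 : w 2 (b + 1 + c) = 1 / (n + t) ^ 2 := by unfold w; rw [hn, ht]; push_cast; ring
  have w5 : w 3 (b + 1 + c) = 1 / (n + t) ^ 3 := by unfold w; rw [hn, ht]; push_cast; ring
  have w6 : w 1 c = 1 / t := by unfold w; rw [ht]; push_cast; ring
  have w7 : w 1 (b + 1 + c + (b + 1)) = 1 / (2 * n + t) := by
    unfold w; rw [hn, ht]; push_cast; ring
  rw [w1, w3, w5, w6, w7]
  rw [w2, w4] at hg
  have hne : (1 : ℝ) / (n + t) ^ 2 - 1 / n ^ 2 ≠ 0 := by
    rw [div_sub_div _ _ (by positivity) (by positivity)]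
    refine div_ne_zero ?_ (by positivity)
    have : (n + t) ^ 2 ≠ n ^ 2 := by nlinarith
    intro h
    apply this
    linarith
  have hGe : G = (U - W) / (1 / (n + t) ^ 2 - 1 / n ^ 2) := by
    rw [eq_div_iff hne, hg]
  rw [hGe]
  have hd : (1 : ℝ) / (n + t) ^ 2 - 1 / n ^ 2 = -(t * (2 * n + t)) / ((n + t) ^ 2 * n ^ 2) := by
    field_simp
    ring
  rw [hd]
  have h2nt : (2 * n + t) ≠ 0 := by positivity
  have hnt : (n + t) ≠ 0 := by positivity
  field_simp
  ring

lemma sum_refl (N : ℕ) : ∑ b ∈ range N, w 1 (N - (b + 1)) = H N := by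
  unfold H
  rw [← Finset.sum_range_reflect]
  refine sum_congr rfl fun b hb => ?_
  have hb' : b < N := by simpa using hb
  congr 1
  omega

lemma sum_up (N : ℕ) : ∑ b ∈ range N, w 1 (N + (b + 1)) = H (2 * N + 1) - H (N + 1) := by
  have h : ∀ k, ∑ b ∈ range k, w 1 (N + (b + 1)) = H (N + 1 + k) - H (N + 1) := by
    intro k
    induction k with
    | zero => simp
    | succ k ih =>
      rw [sum_range_succ, ih, ← add_assoc (N + 1) k 1, H_succ (N + 1 + k)]
      have : N + (k + 1) = N + 1 + k := by ring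
      rw [this]; ring
  rw [h N]
  congr 2
  ring

theorem T_F {m : ℕ} (hm : 2 ≤ m) (N : ℕ) :
    T (F m) N = ∑ b ∈ range N, w (2 * m - 1) b * (1 / 2) *
      (H (N - (b + 1)) + H (N + (b + 1)) - 2 * H N + (1 / 2) * w 1 b) := by
  induction N with
  | zero => simp [T]
  | succ N ih =>
    rw [T_succ, ih, sum_range_succ]
    have e1 : ∑ b ∈ range N, F m N b = (∑ b ∈ range N, w (2 * m - 1) b * (1 / 2) *
        (w 1 (N - (b + 1)) + w 1 (N + (b + 1)) - 2 * w 1 N)) -
        w (2 * m - 1) N * (1 / 2) * (H N - (H (2 * N + 1) - H (N + 1))) := by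
      rw [← sum_refl N, ← sum_up N, ← sum_sub_distrib, mul_sum, ← sum_sub_distrib]
      refine sum_congr rfl fun b hb => ?_
      exact F_eq hm (by simpa using hb)
    rw [e1]
    have e2 : ∑ b ∈ range N, w (2 * m - 1) b * (1 / 2) *
        (H (N + 1 - (b + 1)) + H (N + 1 + (b + 1)) - 2 * H (N + 1) + (1 / 2) * w 1 b) =
        ∑ b ∈ range N, w (2 * m - 1) b * (1 / 2) *
        (H (N - (b + 1)) + H (N + (b + 1)) - 2 * H N + (1 / 2) * w 1 b) +
        ∑ b ∈ range N, w (2 * m - 1) b * (1 / 2) *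
        (w 1 (N - (b + 1)) + w 1 (N + (b + 1)) - 2 * w 1 N) := by
      rw [← sum_add_distrib]
      refine sum_congr rfl fun b hb => ?_
      have hb' : b < N := by simpa using hb
      have g1 : N + 1 - (b + 1) = (N - (b + 1)) + 1 := by omega
      have g2 : N + 1 + (b + 1) = (N + (b + 1)) + 1 := by omega
      rw [g1, g2, H_succ, H_succ, H_succ]
      ring
    rw [e2]
    have g3 : N + 1 - (N + 1) = 0 := by omega
    have g4 : N + 1 + (N + 1) = (2 * N + 1) + 1 := by omega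
    rw [g3, g4, H_succ (2 * N + 1), H_succ N]
    have g5 : H 0 = 0 := by simp [H]
    have g6 : w 1 (2 * N + 1) = (1 / 2) * w 1 N := by
      unfold w; push_cast; field_simp; ring
    rw [g5, g6]
    ring

lemma H_div_tendsto : Tendsto (fun N : ℕ => H N / N) atTop (𝓝 0) := by
  have h : Tendsto (w 1) atTop (𝓝 0) := by
    have := tendsto_one_div_add_atTop_nhds_zero_nat (𝕜 := ℝ)
    refine this.congr fun n => ?_
    unfold w; push_cast; ring
  have h2 := h.cesaro
  refine h2.congr fun n => ?_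
  unfold H
  rw [div_eq_inv_mul]

lemma err_bound {m N b : ℕ} (hm : 2 ≤ m) (hb : b < N) :
    |w (2 * m - 1) b * (1 / 2) * (H (N - (b + 1)) + H (N + (b + 1)) - 2 * H N)| ≤
      w 1 b * (1 / N) := by
  have hN : (0 : ℝ) < N := by exact_mod_cast (by omega : 0 < N)
  obtain ⟨n, hn⟩ : ∃ n : ℝ, n = (b : ℝ) + 1 := ⟨_, rfl⟩
  have hn1 : 1 ≤ n := by rw [hn]; linarith [(Nat.cast_nonneg b : (0 : ℝ) ≤ b)]
  have hn0 : 0 < n := by linarith
  have hnN : n ≤ N := by rw [hn]; exact_mod_cast hb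
  have h1 := H_diff_le (N - (b + 1)) (b + 1)
  have h1' := H_diff_nonneg (N - (b + 1)) (b + 1)
  have h2 := H_diff_le N (b + 1)
  have h2' := H_diff_nonneg N (b + 1)
  have e : N - (b + 1) + (b + 1) = N := by omega
  rw [e] at h1 h1'
  have c1 : (((b + 1 : ℕ)) : ℝ) = n := by rw [hn]; push_cast; ring
  rw [c1] at h1 h2
  have w1 : w 1 (N - (b + 1)) ≤ n / N := by
    unfold w
    have : (((N - (b + 1) + 1 : ℕ)) : ℝ) = N - n + 1 := by
      rw [hn]
      have h : N - (b + 1) + 1 = N - b := by omega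
      rw [h, Nat.cast_sub hb.le]; ring
    rw [this, pow_one, div_le_div_iff₀ (by linarith) hN]
    nlinarith
  have w2 : w 1 N ≤ n / N := by
    unfold w
    rw [pow_one, div_le_div_iff₀ (by positivity) hN]
    push_cast
    nlinarith
  have k1 : n * w 1 (N - (b + 1)) ≤ n ^ 2 / N := by
    calc n * w 1 (N - (b + 1)) ≤ n * (n / N) := by gcongr
      _ = n ^ 2 / N := by ring
  have k2 : n * w 1 N ≤ n ^ 2 / N := by
    calc n * w 1 N ≤ n * (n / N) := by gcongr
      _ = n ^ 2 / N := by ring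
  have h3 : |H (N - (b + 1)) + H (N + (b + 1)) - 2 * H N| ≤ n ^ 2 / N := by
    rw [abs_le]
    constructor <;> linarith
  rw [abs_mul, abs_of_pos (mul_pos (w_pos _ _) (by norm_num))]
  have h4 : w (2 * m - 1) b ≤ 1 / n ^ 3 := by
    calc w (2 * m - 1) b ≤ w 3 b := w_anti_exp (by omega)
      _ = 1 / n ^ 3 := by unfold w; rw [hn]; push_cast; ring
  have h5 : w 1 b = 1 / n := by unfold w; rw [hn]; push_cast; ring
  rw [h5]
  calc w (2 * m - 1) b * (1 / 2) * |H (N - (b + 1)) + H (N + (b + 1)) - 2 * H N|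
      ≤ (1 / n ^ 3) * 1 * (n ^ 2 / N) := by
        gcongr
        norm_num
    _ = 1 / n * (1 / N) := by field_simp

/-- The sum of the odd-odd double zeta values of weight `2 m` is `ζ(2 m) / 4`. -/
theorem gkz {m : ℕ} (hm : 2 ≤ m) :
    ∑ i ∈ range (m - 1), zd (2 * i + 3) (2 * m - 2 * i - 3) = zr (2 * m) / 4 := by
  have hs : ∀ i ∈ range (m - 1), Summable fun p : ℕ × ℕ =>
      w (2 * i + 3) (p.1 + p.2 + 1) * w (2 * m - 2 * i - 3) p.2 := by
    intro i hi
    have hi' : i < m - 1 := by simpa using hi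
    exact summable_zd (by omega) (by omega)
  have hsF : Summable fun p : ℕ × ℕ => F m (p.1 + p.2 + 1) p.2 := summable_sum hs
  have h1 := tendsto_T hsF
  have h2 : ∑' p : ℕ × ℕ, F m (p.1 + p.2 + 1) p.2 =
      ∑ i ∈ range (m - 1), zd (2 * i + 3) (2 * m - 2 * i - 3) := by
    unfold F zd
    exact Summable.tsum_finsetSum hs
  rw [h2] at h1
  have h3 : Tendsto (fun N => ∑ b ∈ range N, w (2 * m) b / 4) atTop (𝓝 (zr (2 * m) / 4)) := by
    have := (summable_w (s := 2 * m) (by omega)).hasSum.tendsto_sum_nat.div_const 4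
    refine this.congr fun N => ?_
    rw [sum_div]
  have h4 : Tendsto (fun N => ∑ b ∈ range N, w (2 * m - 1) b * (1 / 2) *
      (H (N - (b + 1)) + H (N + (b + 1)) - 2 * H N)) atTop (𝓝 0) := by
    refine squeeze_zero_norm (fun N => ?_) H_div_tendsto
    rw [Real.norm_eq_abs]
    refine (Finset.abs_sum_le_sum_abs _ _).trans ?_
    calc ∑ b ∈ range N, |w (2 * m - 1) b * (1 / 2) * (H (N - (b + 1)) + H (N + (b + 1)) - 2 * H N)|
        ≤ ∑ b ∈ range N, w 1 b * (1 / N) :=
          sum_le_sum fun b hb => err_bound hm (by simpa using hb)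
      _ = H N / N := by rw [← sum_mul]; unfold H; ring
  have h5 : Tendsto (T (F m)) atTop (𝓝 (0 + zr (2 * m) / 4)) := by
    refine (h4.add h3).congr fun N => ?_
    rw [T_F hm, ← sum_add_distrib]
    refine sum_congr rfl fun b _ => ?_
    have e : 2 * m = (2 * m - 1) + 1 := by omega
    rw [show w (2 * m) b = w (2 * m - 1) b * w 1 b by rw [w_mul, ← e]]
    ring
  rw [zero_add] at h5
  exact tendsto_nhds_unique h1 h5

end TH981.DZ
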