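import Mathlib
import Pool.Agent.TH981.DZ.Sum
import Pool.Agent.TH981.DZ.Alg
import Pool.Agent.TH981.DZ.Block

set_option autoImplicit false

open Finset

namespace TH981.DZ

/-- The span of the odd-odd double zeta values of weight `2 m`. -/
noncomputable def D (m : ℕ) : Submodule ℚ ℝ :=
  Submodule.span ℚ (Set.range fun i : Fin (m - 1) => zd (2 * (i : ℕ) + 3) (2 * m - 2 * (i : ℕ) - 3))

instance (m : ℕ) : FiniteDimensional ℚ (D m) :=
  FiniteDimensional.span_of_finite ℚ (Set.finite_range _)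

lemma zd_mem {m i : ℕ} (hi : i < m - 1) : zd (2 * i + 3) (2 * m - 2 * i - 3) ∈ D m :=
  Submodule.subset_span ⟨⟨i, hi⟩, rfl⟩

lemma zr_mem {m : ℕ} (hm : 2 ≤ m) : zr (2 * m) ∈ D m := by
  have h := gkz hm
  have e : zr (2 * m) = (4 : ℚ) • ∑ i ∈ range (m - 1), zd (2 * i + 3) (2 * m - 2 * i - 3) := by
    rw [h, Rat.smul_def]; push_cast; ring
  rw [e]
  exact Submodule.smul_mem _ _ (Submodule.sum_mem _ fun i hi => zd_mem (by simpa using hi))

lemma prod_mem {m a b : ℕ} (ha : 1 ≤ a) (hb : 1 ≤ b) (hab : a + b + 1 = m) :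
    zr (2 * a + 1) * zr (2 * b + 1) ∈ D m := by
  rw [stuffle (by omega) (by omega)]
  have e : 2 * a + 1 + (2 * b + 1) = 2 * m := by omega
  rw [e]
  refine Submodule.add_mem _ (Submodule.add_mem _ ?_ ?_) (zr_mem (by omega))
  · have := zd_mem (m := m) (i := a - 1) (by omega)
    have e1 : 2 * (a - 1) + 3 = 2 * a + 1 := by omega
    have e2 : 2 * m - 2 * (a - 1) - 3 = 2 * b + 1 := by omega
    rwa [e1, e2] at this
  · have := zd_mem (m := m) (i := b - 1) (by omega)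
    have e1 : 2 * (b - 1) + 3 = 2 * b + 1 := by omega
    have e2 : 2 * m - 2 * (b - 1) - 3 = 2 * a + 1 := by omega
    rwa [e1, e2] at this

lemma zr_even {m : ℕ} (hm : 1 ≤ m) : ∃ q : ℚ, q ≠ 0 ∧ zr (2 * m) = q * Real.pi ^ (2 * m) := by
  have h := hasSum_zeta_nat (k := m) (by omega)
  have h2 : zr (2 * m) = ∑' n : ℕ, 1 / (n : ℝ) ^ (2 * m) := by
    rw [h.summable.tsum_eq_zero_add]
    unfold zr w
    simp only [Nat.cast_zero]
    rw [zero_pow (by omega)]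
    simp
  rw [h.tsum_eq] at h2
  refine ⟨(-1) ^ (m + 1) * 2 ^ (2 * m - 1) * bernoulli (2 * m) / (2 * m).factorial, ?_, ?_⟩
  · intro h0
    have h3 := zr_pos (s := 2 * m) (by omega)
    have h4 : zr (2 * m) = (((-1) ^ (m + 1) * 2 ^ (2 * m - 1) * bernoulli (2 * m) /
        (2 * m).factorial : ℚ) : ℝ) * Real.pi ^ (2 * m) := by
      rw [h2]; push_cast; ring
    rw [h4, h0] at h3
    simp at h3
  · rw [h2]; push_cast; ring

lemma pi_mem {m : ℕ} (hm : 2 ≤ m) : Real.pi ^ (2 * m) ∈ D m := by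
  obtain ⟨q, hq, he⟩ := zr_even (m := m) (by omega)
  have h := Submodule.smul_mem (D m) q⁻¹ (zr_mem hm)
  rw [he, Rat.smul_def] at h
  have hq' : (q : ℝ) ≠ 0 := by exact_mod_cast hq
  have e : ((q⁻¹ : ℚ) : ℝ) * ((q : ℝ) * Real.pi ^ (2 * m)) = Real.pi ^ (2 * m) := by
    push_cast; field_simp
  rwa [e] at h

/-- the normalised odd zeta values -/
noncomputable def xv (a : ℕ) : ℝ := zr (2 * a + 1) / Real.pi ^ (2 * a + 1)

lemma xv_ne {a : ℕ} (ha : 1 ≤ a) : xv a ≠ 0 :=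
  div_ne_zero (zr_pos (by omega)).ne' (pow_ne_zero _ Real.pi_pos.ne')

/-- scaled space -/
noncomputable def P (m : ℕ) : Submodule ℚ ℝ :=
  (D m).map (LinearMap.mulLeft ℚ ((Real.pi ^ (2 * m))⁻¹ : ℝ))

instance (m : ℕ) : FiniteDimensional ℚ (P m) := by unfold P; infer_instance

lemma P_le (m : ℕ) : Module.finrank ℚ (P m) ≤ Module.finrank ℚ (D m) :=
  Submodule.finrank_map_le _ _

lemma one_mem_P {m : ℕ} (hm : 2 ≤ m) : (1 : ℝ) ∈ P m :=
  ⟨_, pi_mem hm, by simp⟩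

lemma mul_mem_P {m a b : ℕ} (ha : 1 ≤ a) (hb : 1 ≤ b) (hab : a + b + 1 = m) :
    xv a * xv b ∈ P m := by
  refine ⟨_, prod_mem ha hb hab, ?_⟩
  have e : Real.pi ^ (2 * m) = Real.pi ^ (2 * a + 1) * Real.pi ^ (2 * b + 1) := by
    rw [← pow_add]; congr 1; omega
  unfold xv
  rw [LinearMap.mulLeft_apply, e]
  have := Real.pi_pos
  field_simp

theorem main_block {n δ : ℕ} (hn : 1 ≤ n) (hδ : 1 ≤ δ) :
    ∃ S : Finset ℝ,
      S.card + 2 ≤ Module.finrank ℚ (D (n + 1)) + Module.finrank ℚ (D (n + δ + 1)) + δ / 2 ∧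
      ∀ a, 1 ≤ a → a < n + δ → xv a ^ 2 ∈ IntermediateField.adjoin ℚ (S : Set ℝ) := by
  obtain ⟨S, h, h'⟩ := block_bound (x := xv) (fun a ha => xv_ne ha) hn hδ (P (n + 1))
    (P (n + δ + 1)) (one_mem_P (by omega)) (one_mem_P (by omega))
    (fun a b ha hb hab => mul_mem_P ha hb (by omega))
    (fun a b ha hb hab => mul_mem_P ha hb (by omega))
  have h1 := P_le (n + 1)
  have h2 := P_le (n + δ + 1)
  exact ⟨S, by omega, h'⟩

/-- The relations. -/
noncomputable def Rel (m : ℕ) : Submodule ℚ (Fin (m - 1) → ℚ) :=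
  LinearMap.ker (Fintype.linearCombination ℚ
    (fun i : Fin (m - 1) => zd (2 * (i : ℕ) + 3) (2 * m - 2 * (i : ℕ) - 3)))

lemma rank_nullity (m : ℕ) : Module.finrank ℚ (D m) + Module.finrank ℚ (Rel m) = m - 1 := by
  have h := LinearMap.finrank_range_add_finrank_ker (Fintype.linearCombination ℚ
    (fun i : Fin (m - 1) => zd (2 * (i : ℕ) + 3) (2 * m - 2 * (i : ℕ) - 3)))
  rw [Fintype.range_linearCombination, Module.finrank_fin_fun] at h
  exact h

end TH981.DZ
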